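import Pool.Agent.R952.PAM.Prob

/-!
# MP_360c0a_pr, Q1: eventual monotonicity in time of the parabolic Anderson model solution

Affirmative answer. `IsPAM ξ f0 u` (file `Pool/Agent/R952/PAM/Sol.lean`) says that `u` is the
(bounded on bounded time intervals) solution of
`∂_t u (t, x) = Δ_d u (t, x) + ξ x * u (t, x)`, `u (0, x) = f0 x`,
with `Δ_d f (x) = (f (x+1) + f (x-1) - 2 f x) / 2`.

Neither the assumption `v_0 > v_c` of the problem nor `ess inf ξ > 0` is needed; `0 ≤ ess inf ξ` is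
enough. The monotonicity is strict, and the exceptional null set does not depend on the initial
configuration.

Proof. Let `b n x y` be the entries of the `n`-th power of `H + 2`, `H = Δ_d + ξ`, so that
`u (t, x) = e^(-2t) ∑ t^n / n! ∑_y b n x y u0 y`.
(1) By cutting the bonds between `y` and `x` (last exit decomposition), `n ↦ b (n + D) x y`,
`D = |x - y|`, is a constant times a `D`-fold convolution of log-convex sequences; a convexity
argument gives `b (n+1) x y ≥ b n x y * (b n x y / C(n, D)) ^ (1/(n+1))`.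
(2) Long islands where `ξ` is close to its essential supremum `S` give
`b n x y ≥ (2 + S - η)^n` for `|x - y| ≤ γ n`; with (1), `b (n+1) x y ≥ (2 + S/2) b n x y` there.
(3) A supersolution and the law of large numbers give `b n x y ≤ (2+S)^n q^|x-y|`, `q < 1`, for
`y` far on the left of `x`.
Hence `∑_y (b (n+1) x y - 2 b n x y) u0 y ≥ 1` for all large `n`, and
`∂_t u (t, x) = e^(-2t) ∑ t^n / n! ∑_y (b (n+1) x y - 2 b n x y) u0 y > 0` for large `t`.
-/

set_option autoImplicit false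

open MeasureTheory ProbabilityTheory Filter Topology

namespace Pool.Agent.Results.MP_360c0a_pr.EventuallyIncreasing

open Pool.Agent.R952.PAM

/-- **Eventual monotonicity of the solution of the parabolic Anderson model.** -/
theorem result {Ω : Type*} [MeasurableSpace Ω] (P : Measure Ω) [IsProbabilityMeasure P]
    (ξ : ℤ → Ω → ℝ) (hmeas : ∀ x, Measurable (ξ x)) (hindep : iIndepFun ξ P)
    (hid : ∀ x, IdentDistrib (ξ x) (ξ 0) P P)
    (h1 : 0 ≤ essInf (fun ω => (ξ 0 ω : EReal)) P)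
    (h2 : essInf (fun ω => (ξ 0 ω : EReal)) P < essSup (fun ω => (ξ 0 ω : EReal)) P)
    (h3 : essSup (fun ω => (ξ 0 ω : EReal)) P < ⊤) :
    ∀ᵐ ω ∂P, ∀ (u0 : ℤ → ℕ) (C : ℝ),
      (∀ y, (if y = 0 then 1 else 0) ≤ u0 y) → (∀ y, (u0 y : ℝ) ≤ if y ≤ 0 then C else 0) →
      (∃ u : ℝ → ℤ → ℝ, IsPAM (fun x => ξ x ω) (fun x => (u0 x : ℝ)) u) ∧
      (∀ u v : ℝ → ℤ → ℝ, IsPAM (fun x => ξ x ω) (fun x => (u0 x : ℝ)) u →
        IsPAM (fun x => ξ x ω) (fun x => (u0 x : ℝ)) v → ∀ t, 0 ≤ t → ∀ x, u t x = v t x) ∧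
      ∀ u : ℝ → ℤ → ℝ, IsPAM (fun x => ξ x ω) (fun x => (u0 x : ℝ)) u →
        ∀ x : ℤ, ∃ T : ℝ, 0 ≤ T ∧ StrictMonoOn (fun t => u t x) (Set.Ici T) := by
  -- the essential supremum is a positive real number
  obtain ⟨S, hSeq⟩ : ∃ S : ℝ, (S : EReal) = essSup (fun ω => (ξ 0 ω : EReal)) P :=
    ⟨_, EReal.coe_toReal h3.ne (ne_of_gt (lt_of_le_of_lt bot_le h2))⟩
  have hSpos : 0 < S := by
    have : (0 : EReal) < (S : EReal) := by rw [hSeq]; exact lt_of_le_of_lt h1 h2
    exact_mod_cast this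
  have hle0 : ∀ᵐ ω ∂P, ξ 0 ω ≤ S := by
    filter_upwards [ae_le_essSup (μ := P) (f := fun ω => (ξ 0 ω : EReal))] with ω hω
    rw [← hSeq] at hω
    exact_mod_cast hω
  have hge0 : ∀ᵐ ω ∂P, 0 ≤ ξ 0 ω := by
    filter_upwards [ae_essInf_le (μ := P) (f := fun ω => (ξ 0 ω : EReal))] with ω hω
    have := h1.trans hω
    exact_mod_cast this
  have hhigh : ∀ a : ℝ, a < S → P (ξ 0 ⁻¹' Set.Ici a) ≠ 0 := by
    intro a ha hzero
    have h4 : ∀ᵐ ω ∂P, ω ∉ ξ 0 ⁻¹' Set.Ici a := measure_eq_zero_iff_ae_notMem.1 hzero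
    have h5 : essSup (fun ω => (ξ 0 ω : EReal)) P ≤ (a : EReal) := by
      refine essSup_le_of_ae_le _ ?_
      filter_upwards [h4] with ω hω
      rw [Set.mem_preimage, Set.mem_Ici, not_le] at hω
      exact_mod_cast hω.le
    rw [← hSeq] at h5
    have : S ≤ a := by exact_mod_cast h5
    linarith
  obtain ⟨s, hs1, hs2⟩ := EReal.lt_iff_exists_real_btwn.1 h2
  rw [← hSeq] at hs2
  have hsS : s < S := by exact_mod_cast hs2
  have hlow : P (ξ 0 ⁻¹' Set.Iic s) ≠ 0 := by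
    intro hzero
    have h4 : ∀ᵐ ω ∂P, ω ∉ ξ 0 ⁻¹' Set.Iic s := measure_eq_zero_iff_ae_notMem.1 hzero
    have h5 : (s : EReal) ≤ essInf (fun ω => (ξ 0 ω : EReal)) P := by
      refine le_essInf_of_ae_le _ ?_
      filter_upwards [h4] with ω hω
      rw [Set.mem_preimage, Set.mem_Iic, not_le] at hω
      exact_mod_cast hω.le
    exact absurd hs1 (not_lt.2 h5)
  -- transfer to all sites
  have hle : ∀ᵐ ω ∂P, ∀ x, ξ x ω ≤ S := by
    rw [ae_all_iff]
    intro x
    exact (hid x).symm.ae_mem_snd measurableSet_Iic hle0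
  have hge : ∀ᵐ ω ∂P, ∀ x, 0 ≤ ξ x ω := by
    rw [ae_all_iff]
    intro x
    exact (hid x).symm.ae_mem_snd measurableSet_Ici hge0
  have hisl : ∀ᵐ ω ∂P, ∀ k l : ℕ, ∃ z : ℤ, ∀ w : ℤ, z ≤ w → w < z + l →
      S - 1 / ((k : ℝ) + 1) ≤ ξ w ω := by
    rw [ae_all_iff]
    intro k
    rw [ae_all_iff]
    intro l
    refine ae_island hmeas hindep hid (hhigh _ ?_) l
    have : (0 : ℝ) < 1 / ((k : ℝ) + 1) := by positivity
    linarith
  filter_upwards [hle, hge, hisl, ae_low hmeas hindep hid hlow] with ω w1 w2 w3 w4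
  intro u0 C hu1 hu2
  have hgood : Good (fun x => ξ x ω) S := by
    refine ⟨w2, w1, fun η hη l => ?_, ⟨S - s, by linarith, fun x => ?_⟩⟩
    · obtain ⟨k, hk⟩ := exists_nat_one_div_lt hη
      obtain ⟨z, hz⟩ := w3 k l
      exact ⟨z, fun w ha hb => le_trans (by linarith) (hz w ha hb)⟩
    · have e : S - (S - s) = s := by ring
      rw [e]
      exact w4 x
  have hC0 : 0 ≤ C := by
    have := hu2 0
    rw [if_pos le_rfl] at this
    exact (Nat.cast_nonneg _).trans this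
  have hf0 : ∀ y, (0 : ℝ) ≤ (u0 y : ℝ) := fun y => Nat.cast_nonneg _
  have hfC : ∀ y, (u0 y : ℝ) ≤ C := fun y => by
    refine (hu2 y).trans ?_
    split_ifs
    · exact le_rfl
    · exact hC0
  have hfp : ∀ y, 0 < y → (u0 y : ℝ) = 0 := fun y hy => by
    have h6 := hu2 y
    rw [if_neg (not_le.2 hy)] at h6
    exact le_antisymm h6 (hf0 y)
  have hf1 : (1 : ℝ) ≤ (u0 0 : ℝ) := by
    have := hu1 0
    rw [if_pos rfl] at this
    exact_mod_cast this
  have habs : ∀ y, |(u0 y : ℝ)| ≤ C := fun y => by rw [abs_of_nonneg (hf0 y)]; exact hfC y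
  refine ⟨⟨_, sol_isPAM w2 w1 habs⟩, fun u v hu hv t ht x => isPAM_unique w2 w1 hu hv ht x,
    fun u hu x => ?_⟩
  exact eventually_increasing hSpos hgood (f0 := fun x => (u0 x : ℝ)) hf0 hfC hfp hf1 hu x

end Pool.Agent.Results.MP_360c0a_pr.EventuallyIncreasing
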